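import Pool.Agent.Q283.FT.Stm

/-!
# Project JQ: Gauss sum
-/

set_option autoImplicit false

namespace Pool.Agent.Q283.FT.B

open Pool.Agent.Q283.FT Finset

theorem block (p q r s : ZMod 2) (h : p + q + r + s = 1) :
    |sg p + sg q + sg r + sg s| = 2 := by
  have hz : ∀ a : ZMod 2, a = 0 ∨ a = 1 := by decide
  have h0 : sg 0 = 1 := by unfold sg; rw [if_pos rfl]
  have h1 : sg 1 = -1 := by unfold sg; rw [if_neg (by decide)]
  rcases hz p with rfl | rfl <;> rcases hz q with rfl | rfl <;> rcases hz r with rfl | rfl <;>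
    rcases hz s with rfl | rfl <;> simp only [h0, h1] <;> first
      | (exfalso; revert h; decide)
      | (norm_num)

theorem t_GS : S_GS := by
  intro L _ _ f a b _ hf
  have h1 : ∀ c : L, ∑ x, sg (f (x + c)) = ∑ x, sg (f x) := fun c =>
    Fintype.sum_equiv (Equiv.addRight c) _ _ fun x => rfl
  have h2 : 4 * ∑ x, sg (f x) =
      ∑ x, (sg (f x) + sg (f (x + a)) + sg (f (x + b)) + sg (f (x + a + b))) := by
    simp only [sum_add_distrib]
    have h3 : ∑ x, sg (f (x + a + b)) = ∑ x, sg (f x) := by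
      rw [← h1 (a + b)]
      exact sum_congr rfl fun x _ => by rw [add_assoc]
    rw [h1, h1, h3]
    ring
  have h3 : |4 * ∑ x, sg (f x)| ≤ ∑ _x : L, (2 : ℝ) := by
    rw [h2]
    refine (abs_sum_le_sum_abs _ _).trans (sum_le_sum fun x _ => ?_)
    exact (block _ _ _ _ (hf x)).le
  rw [sum_const, card_univ, nsmul_eq_mul, abs_mul, abs_of_pos (by norm_num : (0 : ℝ) < 4)] at h3
  linarith

end Pool.Agent.Q283.FT.B
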