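import Pool.Agent.Q283.FT.Stm

/-!
# Project JQ: the torsion
-/

set_option autoImplicit false

namespace Pool.Agent.Q283.FT.B

open Pool.Agent.Q283.FT Finset

theorem t_TOR : S_TOR := by
  classical
  intro s V P _ _ _ _ D ρ hD N h hρ x
  have h2 : ∀ v : V, v + v = 0 := fun v => ZModModule.add_self v
  refine Submodule.mem_inf.2 ⟨?_, ?_⟩
  · rw [Submodule.mem_comap]
    have h3 : clL h ((fun t => D.T (Pi.single t 1) x), (fun _ : P => x)) =
        ((fun t => D.T (Pi.single t 1) x), (fun t => ρ t • x)) := by
      refine Prod.ext rfl ?_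
      funext t
      change ∑ p, h p t • x = ρ t • x
      rw [← sum_smul, ← hρ, Finset.sum_apply]
    rw [h3]
    have h4 := hD.tor x
    simpa using h4
  · rw [LinearMap.mem_ker]
    funext p
    change ∑ q, N p q • (x + x) + D.T (h p) x + ∑ t, h p t • D.T (Pi.single t 1) x = 0
    have h3 : ∑ t, h p t • D.T (Pi.single t 1) x = D.T (h p) x := by
      have h4 : h p = ∑ t, h p t • (Pi.single t 1 : s → ZMod 2) := by
        funext t
        rw [Finset.sum_apply, Finset.sum_eq_single t]
        · simp
        · intro b _ hb
          simp [Ne.symm hb]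
        · simp
      conv_rhs => rw [h4, map_sum, LinearMap.sum_apply]
      exact sum_congr rfl fun t _ => by rw [map_smul, LinearMap.smul_apply]
    rw [h3, h2 x]
    simp only [smul_zero, sum_const_zero, zero_add]
    exact h2 _

end Pool.Agent.Q283.FT.B
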